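import Mathlib

/-!
A checker for decision trees over the orientations of a graph on `Fin 15`.  A set of possible
arcs is a natural number, bit `16 * u + v` stands for the arc `(u, v)`.
-/

namespace Pool.Agent.Lib.MP_610dff_co_helper16

/-- Decision trees: `leaf L` holds eight forcings, coded in base `256`
(`16 * u + v` for the forcing of `v` by `u`), the last forcing in the lowest digit;
`node u v a b` branches on the direction of the edge `uv` (`a`: the arc goes from `u` to `v`). -/
inductive Tree where
  | leaf : Nat → Tree
  | node : Nat → Nat → Tree → Tree → Tree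

/-- bit test -/
def tb (n i : Nat) : Bool := Nat.beq (Nat.land (Nat.shiftRight n i) 1) 1

theorem tb_eq (n i : Nat) : tb n i = n.testBit i := by
  unfold tb
  have h1 : Nat.land (Nat.shiftRight n i) 1 = (n >>> i) &&& 1 := rfl
  rw [h1, Nat.testBit_eq_decide_div_mod_eq, Nat.and_one_is_mod, Nat.shiftRight_eq_div_pow]
  rcases Nat.mod_two_eq_zero_or_one (n / 2 ^ i) with h | h <;> rw [h] <;> decide

/-- the check at a leaf -/
def leafCheck (full poss : Nat) : Nat → Nat → Nat → Bool
  | 0, _, _ => true
  | k + 1, L, later =>
    let i := L % 256
    let u := i / 16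
    let v := i % 16
    Nat.blt u 15 && (Nat.blt v 15 && (tb full i && (!(tb poss (16 * v + u)) &&
      (Nat.beq (Nat.land (Nat.shiftRight poss (16 * u)) later) 0 &&
        (!(tb later u) && (!(tb later v) &&
          leafCheck full poss k (L / 256) (Nat.lor later (2 ^ v))))))))

/-- the check of a whole tree -/
def check (full : Nat) : Tree → Nat → Bool
  | .leaf L, poss => leafCheck full poss 8 L 0
  | .node u v a b, poss =>
    Nat.blt u 15 && (Nat.blt v 15 &&
      (check full a (Nat.xor poss (2 ^ (16 * v + u))) &&
        check full b (Nat.xor poss (2 ^ (16 * u + v)))))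

end Pool.Agent.Lib.MP_610dff_co_helper16
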