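import Pool.Agent.Lib.MP_610dff_co_helper16.Data

/-!
Kernel evaluation of the check.
-/

namespace Pool.Agent.Lib.MP_610dff_co_helper16

/-- the mask of all arcs of the graph -/
def full : Nat := 124231857259029164571978320517359706279497406440672923921582665470640142

theorem root_ok : check full root full = true := by
  decide +kernel

end Pool.Agent.Lib.MP_610dff_co_helper16
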